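import Mathlib

/-!
Basic objects for the presentation of the automorphism group of a free group:
letters, signed permutations, elementary transvections.
-/

namespace Pool.Agent.Helper44.OutFn

/-- Letters of the free group on `α`: `(i, true)` is the generator `i`, `(i, false)` its inverse. -/
abbrev Lt (α : Type*) := α × Bool

/-- The inverse letter. -/
def bar {α : Type*} (x : Lt α) : Lt α := (x.1, !x.2)

/-- The element of the free group given by a letter. -/
def el {α : Type*} (x : Lt α) : FreeGroup α := FreeGroup.mk [x]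

section basic

variable {α : Type*}

@[simp] theorem bar_bar (x : Lt α) : bar (bar x) = x := by simp [bar]

@[simp] theorem bar_fst (x : Lt α) : (bar x).1 = x.1 := rfl

@[simp] theorem bar_snd (x : Lt α) : (bar x).2 = !x.2 := rfl

theorem bar_inj {x y : Lt α} : bar x = bar y ↔ x = y :=
  ⟨fun h => by simpa using congrArg bar h, fun h => by rw [h]⟩

theorem bar_ne (x : Lt α) : bar x ≠ x := by
  intro h; have := congrArg Prod.snd h; simp at this

theorem ne_bar (x : Lt α) : x ≠ bar x := (bar_ne x).symm

theorem bar_eq_comm {x y : Lt α} : bar x = y ↔ x = bar y := by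
  constructor
  · rintro rfl; simp
  · rintro rfl; simp

theorem fst_eq_iff {x y : Lt α} : x.1 = y.1 ↔ x = y ∨ x = bar y := by
  rcases x with ⟨i, s⟩; rcases y with ⟨j, t⟩
  cases s <;> cases t <;> simp [bar]

theorem ne_of_fst_ne {x y : Lt α} (h : x.1 ≠ y.1) : x ≠ y := fun e => h (by rw [e])

theorem el_bar (x : Lt α) : el (bar x) = (el x)⁻¹ := by
  simp [el, bar, FreeGroup.inv_mk, FreeGroup.invRev]

@[simp] theorem el_true (i : α) : el (i, true) = FreeGroup.of i := rfl

@[simp] theorem el_false (i : α) : el (i, false) = (FreeGroup.of i)⁻¹ := by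
  have := el_bar (i, true)
  simpa [bar] using this

theorem el_mul_bar (x : Lt α) : el x * el (bar x) = 1 := by simp [el_bar]

theorem mk_cons (x : Lt α) (l : List (Lt α)) : FreeGroup.mk (x :: l) = el x * FreeGroup.mk l := by
  simp [el, FreeGroup.mul_mk]

theorem el_injective : Function.Injective (el : Lt α → FreeGroup α) := by
  classical
  intro x y h
  have := congrArg FreeGroup.toWord h
  simpa [el, FreeGroup.toWord_mk, FreeGroup.reduce.cons, FreeGroup.reduce_nil] using this

/-- A homomorphism from a free group is determined by its values on letters. -/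
theorem hom_ext_el {G : Type*} [Monoid G] {f g : FreeGroup α →* G}
    (h : ∀ i : α, f (el (i, true)) = g (el (i, true))) : f = g :=
  FreeGroup.ext_hom _ _ (fun i => by simpa using h i)

theorem aut_ext {f g : MulAut (FreeGroup α)} (h : ∀ i : α, f (el (i, true)) = g (el (i, true))) :
    f = g := by
  have : (f : FreeGroup α ≃* FreeGroup α).toMonoidHom = (g : FreeGroup α ≃* FreeGroup α).toMonoidHom :=
    hom_ext_el h
  ext x
  exact DFunLike.congr_fun this x

end basic

/-- The group of signed permutations, as permutations of the letters which commute with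
inversion of letters. -/
def SPerm (α : Type*) : Subgroup (Equiv.Perm (Lt α)) where
  carrier := {w | ∀ x, w (bar x) = bar (w x)}
  mul_mem' := by
    intro v w hv hw x
    simp only [Set.mem_ofPred_eq, Equiv.Perm.coe_mul, Function.comp_apply] at *
    rw [hw, hv]
  one_mem' := by intro x; simp
  inv_mem' := by
    intro w hw x
    simp only [Set.mem_ofPred_eq] at *
    apply w.injective
    rw [hw]
    simp

section sperm

variable {α : Type*}

instance : CoeFun (SPerm α) (fun _ => Lt α → Lt α) := ⟨fun w => (w : Equiv.Perm (Lt α))⟩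

theorem SPerm.bar (w : SPerm α) (x : Lt α) : w (bar x) = OutFn.bar (w x) := w.2 x

@[simp] theorem SPerm.mul_app (v w : SPerm α) (x : Lt α) : (v * w) x = v (w x) := rfl

@[simp] theorem SPerm.one_app (x : Lt α) : (1 : SPerm α) x = x := rfl

@[simp] theorem SPerm.inv_app_self (w : SPerm α) (x : Lt α) : w⁻¹ (w x) = x := by
  change ((w⁻¹ * w : SPerm α) : Lt α → Lt α) x = x
  simp

@[simp] theorem SPerm.app_inv_self (w : SPerm α) (x : Lt α) : w (w⁻¹ x) = x := by
  change ((w * w⁻¹ : SPerm α) : Lt α → Lt α) x = x
  simp

theorem SPerm.injective (w : SPerm α) : Function.Injective (w : Lt α → Lt α) :=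
  (w : Equiv.Perm (Lt α)).injective

theorem SPerm.ext {v w : SPerm α} (h : ∀ i : α, v (i, true) = w (i, true)) : v = w := by
  apply Subtype.ext
  apply Equiv.ext
  rintro ⟨i, s⟩
  cases s
  · have h1 := v.2 (i, true)
    have h2 := w.2 (i, true)
    simp only [OutFn.bar, Bool.not_true] at h1 h2
    rw [h1, h2]
    have := h i
    change OutFn.bar (v (i, true)) = OutFn.bar (w (i, true))
    rw [this]
  · exact h i

theorem SPerm.fst_eq (w : SPerm α) {x y : Lt α} (h : x.1 = y.1) : (w x).1 = (w y).1 := by
  rcases fst_eq_iff.1 h with rfl | rfl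
  · rfl
  · rw [SPerm.bar]; rfl

theorem SPerm.fst_eq_iff (w : SPerm α) {x y : Lt α} : (w x).1 = (w y).1 ↔ x.1 = y.1 := by
  constructor
  · intro h
    have := SPerm.fst_eq w⁻¹ h
    simpa using this
  · exact SPerm.fst_eq w

theorem SPerm.fst_ne (w : SPerm α) {x y : Lt α} (h : x.1 ≠ y.1) : (w x).1 ≠ (w y).1 :=
  fun e => h ((SPerm.fst_eq_iff w).1 e)

/-- The endomorphism given by a signed permutation. -/
def spHom (w : SPerm α) : FreeGroup α →* FreeGroup α := FreeGroup.lift (fun i => el (w (i, true)))

theorem spHom_el (w : SPerm α) (x : Lt α) : spHom w (el x) = el (w x) := by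
  rcases x with ⟨i, s⟩
  cases s
  · have h1 := w.2 (i, true)
    simp only [OutFn.bar, Bool.not_true] at h1
    rw [el_false, map_inv]
    change (spHom w (FreeGroup.of i))⁻¹ = el ((w : Equiv.Perm (Lt α)) (i, false))
    rw [h1]
    have : el ((((w : Equiv.Perm (Lt α)) (i, true)).1, !((w : Equiv.Perm (Lt α)) (i, true)).2) : Lt α)
        = (el (w (i, true)))⁻¹ := el_bar (w (i, true))
    rw [this, spHom, FreeGroup.lift_apply_of]
  · rw [el_true, spHom, FreeGroup.lift_apply_of]

/-- The automorphism of the free group given by a signed permutation. -/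
noncomputable def spAut : SPerm α →* MulAut (FreeGroup α) where
  toFun w := MulEquiv.ofBijective (spHom w) (by
    have h : ∀ v w : SPerm α, (spHom v).comp (spHom w) = spHom (v * w) := by
      intro v w
      apply hom_ext_el
      intro i
      rw [MonoidHom.comp_apply, spHom_el, spHom_el, spHom_el]; rfl
    have h1 : spHom (1 : SPerm α) = MonoidHom.id _ := by
      apply hom_ext_el
      intro i
      rw [spHom_el]; rfl
    constructor
    · have h2 := h w⁻¹ w
      rw [inv_mul_cancel, h1] at h2
      exact Function.LeftInverse.injective (g := spHom w⁻¹) (fun x => DFunLike.congr_fun h2 x)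
    · have h2 := h w w⁻¹
      rw [mul_inv_cancel, h1] at h2
      exact Function.RightInverse.surjective (g := spHom w⁻¹) (fun x => DFunLike.congr_fun h2 x))
  map_one' := by
    apply aut_ext
    intro i
    change spHom 1 (el (i, true)) = el (i, true)
    rw [spHom_el]; rfl
  map_mul' v w := by
    apply aut_ext
    intro i
    change spHom (v * w) (el (i, true)) = spHom v (spHom w (el (i, true)))
    rw [spHom_el, spHom_el, spHom_el]; rfl

@[simp] theorem spAut_el (w : SPerm α) (x : Lt α) : spAut w (el x) = el (w x) := spHom_el w x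

end sperm

section trans

variable {α : Type*} [DecidableEq α]

/-- The endomorphism with `x ↦ x y` (and fixing the generators other than that of `x`). -/
def eHom (x y : Lt α) : FreeGroup α →* FreeGroup α :=
  FreeGroup.lift (fun i => if i = x.1 then (if x.2 then el x * el y else (el y)⁻¹ * el (bar x))
    else el (i, true))

theorem eHom_el {x y : Lt α} (z : Lt α) :
    eHom x y (el z) = if z = x then el x * el y else if z = bar x then (el y)⁻¹ * el (bar x)
      else el z := by
  rcases x with ⟨i, s⟩
  rcases z with ⟨j, t⟩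
  by_cases hij : j = i
  · subst hij
    cases s <;> cases t <;> simp [eHom, bar, el_true, el_false, FreeGroup.lift_apply_of]
  · cases t <;> simp [eHom, hij, bar, el_true, el_false, FreeGroup.lift_apply_of]

theorem eHom_eHom_bar {x y : Lt α} (h : x.1 ≠ y.1) (z : FreeGroup α) :
    eHom x y (eHom x (bar y) z) = z := by
  have : (eHom x y).comp (eHom x (bar y)) = MonoidHom.id _ := by
    apply hom_ext_el
    intro i
    have hy : ∀ s, eHom x s (el y) = el y := by
      intro s
      rw [eHom_el, if_neg (ne_of_fst_ne h).symm, if_neg]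
      intro e; apply h; rw [e]; rfl
    rw [MonoidHom.comp_apply, eHom_el]
    split_ifs with h1 h2
    · rw [map_mul, el_bar, map_inv, hy, eHom_el, if_pos rfl, h1]; simp
    · rw [map_mul, map_inv, el_bar y, map_inv, hy, eHom_el (bar x), if_neg (bar_ne x), if_pos rfl, h2]
      simp
    · rw [eHom_el, if_neg h1, if_neg h2]; rfl
  exact DFunLike.congr_fun this z

/-- The transvection `x ↦ x y`, as an automorphism (the identity when `x`, `y` are on the same
generator). -/
def eAut (x y : Lt α) : MulAut (FreeGroup α) :=
  if h : x.1 ≠ y.1 then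
    { toFun := eHom x y
      invFun := eHom x (bar y)
      left_inv := fun z => by
        have := eHom_eHom_bar (x := x) (y := bar y) (by simpa using h) z
        simpa using this
      right_inv := fun z => eHom_eHom_bar h z
      map_mul' := fun a b => map_mul _ a b }
  else 1

theorem eAut_el {x y : Lt α} (h : x.1 ≠ y.1) (z : Lt α) :
    eAut x y (el z) = if z = x then el x * el y else if z = bar x then (el y)⁻¹ * el (bar x)
      else el z := by
  rw [eAut, dif_pos h]
  exact eHom_el z

theorem eAut_el_self {x y : Lt α} (h : x.1 ≠ y.1) : eAut x y (el x) = el x * el y := by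
  rw [eAut_el h, if_pos rfl]

theorem eAut_el_bar {x y : Lt α} (h : x.1 ≠ y.1) : eAut x y (el (bar x)) = (el y)⁻¹ * el (bar x) := by
  rw [eAut_el h, if_neg (bar_ne x), if_pos rfl]

theorem eAut_el_of_ne {x y z : Lt α} (h : x.1 ≠ y.1) (hz : z.1 ≠ x.1) : eAut x y (el z) = el z := by
  rw [eAut_el h, if_neg (ne_of_fst_ne hz), if_neg]
  intro e; apply hz; rw [e]; rfl

end trans

section perms

variable {α : Type*} [DecidableEq α]

/-- inversion of the generator `i` -/
def flip (i : α) : SPerm α :=
  ⟨Equiv.swap (i, true) (i, false), by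
    rintro ⟨j, s⟩
    by_cases h : j = i
    · subst h
      cases s <;> simp [bar]
    · have h1 : ∀ t : Bool, Equiv.swap (i, true) (i, false) ((j, t) : Lt α) = (j, t) := by
        intro t
        apply Equiv.swap_apply_of_ne_of_ne <;> simp [h]
      simp [bar, h1]⟩

theorem flip_app (i : α) (x : Lt α) : flip i x = if x.1 = i then bar x else x := by
  rcases x with ⟨j, s⟩
  change Equiv.swap (i, true) (i, false) (j, s) = _
  by_cases h : j = i
  · subst h
    cases s <;> simp [bar]
  · rw [if_neg h]
    apply Equiv.swap_apply_of_ne_of_ne <;> simp [h]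

/-- exchange of the letters `x` and `y` (and of their inverses) when they are on different
generators -/
def swp (x y : Lt α) : SPerm α :=
  if h : x.1 ≠ y.1 then
    ⟨Equiv.swap x y * Equiv.swap (bar x) (bar y), by
      intro z
      have hxy : x ≠ y := ne_of_fst_ne h
      have h1 : x ≠ bar y := fun e => h (by rw [e]; rfl)
      have h2 : y ≠ bar x := fun e => h (by rw [e]; rfl)
      have h1' : bar y ≠ x := h1.symm
      have h2' : bar x ≠ y := h2.symm
      simp only [Equiv.Perm.coe_mul, Function.comp_apply]
      by_cases hz : z = x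
      · subst hz
        rw [Equiv.swap_apply_left, Equiv.swap_apply_of_ne_of_ne h1' (bar_ne y),
          Equiv.swap_apply_of_ne_of_ne (ne_bar z) h1, Equiv.swap_apply_left]
      by_cases hz2 : z = y
      · subst hz2
        rw [Equiv.swap_apply_right, Equiv.swap_apply_of_ne_of_ne (bar_ne x) h2',
          Equiv.swap_apply_of_ne_of_ne h2 (ne_bar z), Equiv.swap_apply_right]
      by_cases hz3 : z = bar x
      · subst hz3
        rw [bar_bar, Equiv.swap_apply_of_ne_of_ne (ne_bar x) h1, Equiv.swap_apply_left,
          Equiv.swap_apply_left, Equiv.swap_apply_of_ne_of_ne h1' (bar_ne y), bar_bar]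
      by_cases hz4 : z = bar y
      · subst hz4
        rw [bar_bar, Equiv.swap_apply_of_ne_of_ne h2 (ne_bar y), Equiv.swap_apply_right,
          Equiv.swap_apply_right, Equiv.swap_apply_of_ne_of_ne (bar_ne x) h2', bar_bar]
      have e1 : bar z ≠ bar x := fun e => hz (bar_inj.1 e)
      have e2 : bar z ≠ bar y := fun e => hz2 (bar_inj.1 e)
      have e3 : bar z ≠ x := fun e => hz3 (bar_eq_comm.1 e)
      have e4 : bar z ≠ y := fun e => hz4 (bar_eq_comm.1 e)
      rw [Equiv.swap_apply_of_ne_of_ne e1 e2, Equiv.swap_apply_of_ne_of_ne e3 e4,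
        Equiv.swap_apply_of_ne_of_ne hz3 hz4, Equiv.swap_apply_of_ne_of_ne hz hz2]⟩
  else 1

theorem swp_app {x y : Lt α} (h : x.1 ≠ y.1) (z : Lt α) :
    swp x y z = if z = x then y else if z = y then x else if z = bar x then bar y else
      if z = bar y then bar x else z := by
  have hxy : x ≠ y := ne_of_fst_ne h
  have h1 : x ≠ bar y := fun e => h (by rw [e]; rfl)
  have h2 : y ≠ bar x := fun e => h (by rw [e]; rfl)
  have h1' : bar y ≠ x := h1.symm
  have h2' : bar x ≠ y := h2.symm
  have h0 : swp x y z = Equiv.swap x y (Equiv.swap (bar x) (bar y) z) := by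
    rw [swp, dif_pos h]; rfl
  rw [h0]
  split_ifs with hz hz2 hz3 hz4
  · subst hz
    rw [Equiv.swap_apply_of_ne_of_ne (ne_bar z) h1, Equiv.swap_apply_left]
  · subst hz2
    rw [Equiv.swap_apply_of_ne_of_ne h2 (ne_bar z), Equiv.swap_apply_right]
  · subst hz3
    rw [Equiv.swap_apply_left, Equiv.swap_apply_of_ne_of_ne h1' (bar_ne y)]
  · subst hz4
    rw [Equiv.swap_apply_right, Equiv.swap_apply_of_ne_of_ne (bar_ne x) h2']
  · rw [Equiv.swap_apply_of_ne_of_ne hz3 hz4, Equiv.swap_apply_of_ne_of_ne hz hz2]

end perms

/-- A system of elements `e x y` of a group together with an action of the signed permutations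
satisfying the relations of the transvections `x ↦ x y` and the signed permutations in the
automorphism group of a free group. -/
structure NData (α : Type*) [DecidableEq α] (X : Type*) [Group X] where
  /-- images of the signed permutations -/
  P : SPerm α →* X
  /-- images of the transvections -/
  e : Lt α → Lt α → X
  equivar : ∀ (w : SPerm α) (x y : Lt α), x.1 ≠ y.1 → P w * e x y * (P w)⁻¹ = e (w x) (w y)
  e_bar : ∀ x y : Lt α, x.1 ≠ y.1 → e x (bar y) = (e x y)⁻¹
  comm : ∀ x y z w : Lt α, x ≠ z → x.1 ≠ y.1 → z.1 ≠ w.1 → x.1 ≠ w.1 → z.1 ≠ y.1 →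
    Commute (e x y) (e z w)
  steinberg : ∀ x y z : Lt α, x.1 ≠ y.1 → y.1 ≠ z.1 → x.1 ≠ z.1 →
    e y z * e x y * (e y z)⁻¹ = e x y * e x z
  weyl : ∀ x y : Lt α, x.1 ≠ y.1 → e (bar x) (bar y) * e (bar y) x * e x y = P (swp x y * flip y.1)

end Pool.Agent.Helper44.OutFn
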