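import Pool.Agent.Helper44.OutFn.Word

/-!
Lifts of the automorphism data, connectivity in sublevel sets of the norm.
-/

namespace Pool.Agent.Helper44.OutFn

/-- A system of transvections and signed permutations in a group `Y` over the automorphism group
of the free group. -/
structure Lift (α : Type*) [DecidableEq α] (Y : Type*) [Group Y] where
  /-- the system of elements -/
  D : NData α Y
  /-- the projection to the automorphism group -/
  ρ : Y →* MulAut (FreeGroup α)
  hP : ∀ w, ρ (D.P w) = spAut w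
  hE : ∀ x y : Lt α, x.1 ≠ y.1 → ρ (D.e x y) = eAut x y

namespace Lift

variable {α : Type*} [DecidableEq α] [Fintype α] {Y : Type*} [Group Y] (Λ : Lift α Y)

/-- norm of an element of `Y` -/
def N (y : Y) : ℕ := nrm (Λ.ρ y)

/-- Adjacent elements of norm at most `m`. -/
def Adj (m : ℕ) (p q : Y) : Prop :=
  Λ.N p ≤ m ∧ Λ.N q ≤ m ∧
    ((∃ w : SPerm α, q = Λ.D.P w * p) ∨
      ∃ (A : Finset (Lt α)) (a : Lt α), a ∈ A ∧ bar a ∉ A ∧ q = Λ.D.T A a * p)

/-- Connectivity through elements of norm at most `m`. -/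
def Conn (m : ℕ) : Y → Y → Prop := Relation.EqvGen (Λ.Adj m)

/-- `q` has norm at most `m` and is connected to `r` in norm at most `m`, or `q` has norm `m + 1`
and a Whitehead element takes it to an element of norm at most `m` connected to `r`. -/
def Good (m : ℕ) (r q : Y) : Prop :=
  (Λ.N q ≤ m ∧ Λ.Conn m r q) ∨
    (Λ.N q = m + 1 ∧ ∃ (A : Finset (Lt α)) (a : Lt α), a ∈ A ∧ bar a ∉ A ∧
      Λ.N (Λ.D.T A a * q) ≤ m ∧ Λ.Conn m r (Λ.D.T A a * q))

end Lift

end Pool.Agent.Helper44.OutFn
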