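import Pool.Agent.Helper44.OutFn.Defs

/-!
Definitions for the Nielsen reduction.
-/

namespace Pool.Agent.Helper44.OutFn

variable {α : Type*} [DecidableEq α]

/-- length of the longest common beginning of two words -/
def lcp : List (Lt α) → List (Lt α) → ℕ
  | x :: u, y :: v => if x = y then lcp u v + 1 else 0
  | _, _ => 0

/-- amount of cancellation in the product `f x * f y` -/
def kap (f : MulAut (FreeGroup α)) (x y : Lt α) : ℕ :=
  lcp (f (el (bar x))).toWord (f (el y)).toWord

/-- Nielsen reduced automorphism: in every product `f x * f y * f z` something of `f y` remains. -/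
def NRed (f : MulAut (FreeGroup α)) : Prop :=
  ∀ x y z : Lt α, y ≠ bar x → z ≠ bar y → kap f x y + kap f y z < (f (el y)).norm

/-- the subgroup generated by the transvections -/
def transv (α : Type*) [DecidableEq α] : Subgroup (MulAut (FreeGroup α)) :=
  Subgroup.closure {f | ∃ x y : Lt α, x.1 ≠ y.1 ∧ f = eAut x y}

end Pool.Agent.Helper44.OutFn
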