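import Pool.Agent.Helper44.OutFn.TBasic

/-!
A presentation of the automorphism group of a free group by the signed permutations and one
involution.
-/

namespace Pool.Agent.Helper44.OutFn

/-- A homomorphism from the signed permutations to `X` and an element `γ` of `X` which satisfy
the relations of the involution `a ↦ a⁻¹, b ↦ b a`. -/
structure PData {α : Type*} [DecidableEq α] (a b : α) (X : Type*) [Group X] where
  P : SPerm α →* X
  γ : X
  sq : γ * γ = 1
  comm : ∀ w : SPerm α, w (a, true) = (a, true) → w (b, true) = (b, true) → Commute γ (P w)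
  braid : (γ * P (swp (a, true) (b, false))) ^ 3 = 1
  comm4 : ∀ c d : α, c ≠ a → c ≠ b → d ≠ a → d ≠ b → c ≠ d →
    Commute γ (P (swp (a, true) (c, true) * swp (b, true) (d, true)) * γ *
      P (swp (a, true) (c, true) * swp (b, true) (d, true)))
  comm3 : ∀ c : α, c ≠ a → c ≠ b →
    Commute γ (P (flip b * swp (a, true) (c, true)) * γ * P (flip b * swp (a, true) (c, true)))
  commσ : ∀ c : α, c ≠ a → c ≠ b →
    Commute (γ * P (flip a * swp (b, true) (c, true)) * γ * P (swp (b, true) (c, true)))
      (P (swp (b, true) (c, true)))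
  braid3 : ∀ c : α, c ≠ a → c ≠ b →
    (γ * P (flip a * swp (b, true) (c, true)) * γ * P (swp (b, true) (c, true)) *
      P (swp (a, true) (b, false))) ^ 3 = 1

/-- The involution `a ↦ a⁻¹, b ↦ b a`. -/
noncomputable def gAut {α : Type*} [DecidableEq α] (a b : α) : MulAut (FreeGroup α) :=
  eAut (b, true) (a, true) * spAut (flip a)

end Pool.Agent.Helper44.OutFn
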