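import Pool.Agent.Helper44.OutFn.PData

/-!
The transvection elements attached to a `PData`.
-/

namespace Pool.Agent.Helper44.OutFn

variable {α : Type*} [DecidableEq α] {a b : α} {X : Type*} [Group X]

open Classical in
/-- the element corresponding to the transvection `x ↦ x y` -/
noncomputable def PData.e (p : PData a b X) (x y : Lt α) : X :=
  if h : ∃ w : SPerm α, w (b, true) = x ∧ w (a, true) = y then
    p.P h.choose * (p.γ * p.P (flip a)) * (p.P h.choose)⁻¹
  else 1

theorem PData.e_eq (p : PData a b X) (hab : a ≠ b) (w : SPerm α) :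
    p.e (w (b, true)) (w (a, true)) = p.P w * (p.γ * p.P (flip a)) * (p.P w)⁻¹ := by
  have h : ∃ v : SPerm α, v (b, true) = w (b, true) ∧ v (a, true) = w (a, true) := ⟨w, rfl, rfl⟩
  rw [PData.e, dif_pos h]
  obtain ⟨h1, h2⟩ := h.choose_spec
  set v := h.choose
  have hb : (v⁻¹ * w) (b, true) = (b, true) := by
    rw [SPerm.mul_app, ← h1, SPerm.inv_app_self]
  have ha : (v⁻¹ * w) (a, true) = (a, true) := by
    rw [SPerm.mul_app, ← h2, SPerm.inv_app_self]
  have hc := p.comm (v⁻¹ * w) ha hb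
  have hf : (v⁻¹ * w) * flip a = flip a * (v⁻¹ * w) := by
    apply SPerm.ext
    intro i
    rw [SPerm.mul_app (v⁻¹ * w), SPerm.mul_app (flip a), flip_app, flip_app]
    by_cases hi : i = a
    · subst hi
      rw [if_pos rfl, ha, if_pos rfl, SPerm.bar, ha]
    · rw [if_neg hi, if_neg]
      intro e
      apply hi
      have : ((v⁻¹ * w) (i, true)).1 = ((v⁻¹ * w) (a, true)).1 := by rw [ha]; exact e
      exact (SPerm.fst_eq_iff _).1 this
  have hf' : Commute (p.P (v⁻¹ * w)) (p.P (flip a)) := by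
    rw [Commute, SemiconjBy, ← map_mul, ← map_mul, hf]
  have hcc : Commute (p.P (v⁻¹ * w)) (p.γ * p.P (flip a)) := hc.symm.mul_right hf'
  have hw : p.P w = p.P v * p.P (v⁻¹ * w) := by rw [← map_mul]; simp
  rw [hw, mul_assoc (p.P v) (p.P (v⁻¹ * w)), hcc.eq, mul_inv_rev]
  group

end Pool.Agent.Helper44.OutFn
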