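import Mathlib

/-!
Simple complexes of groups over finite posets and their fundamental groups.
-/

namespace Pool.Agent.Helper44.OutFn

/-- A simple complex of groups over a poset `Q`: a group `G σ` for every `σ`, and injective
homomorphisms `G σ → G τ` for `τ < σ` which compose. -/
structure SimpleComplex (Q : Type) [PartialOrder Q] where
  G : Q → Type
  [group : ∀ σ, Group (G σ)]
  ψ : ∀ {σ τ : Q}, τ < σ → G σ →* G τ
  injective : ∀ {σ τ : Q} (h : τ < σ), Function.Injective (ψ h)
  comp : ∀ {σ τ ρ : Q} (h : τ < σ) (k : ρ < τ), (ψ k).comp (ψ h) = ψ (k.trans h)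

attribute [instance] SimpleComplex.group

namespace SimpleComplex

variable {Q : Type} [PartialOrder Q] (𝒢 : SimpleComplex Q)

/-- The relations `ψ g = g` in the free product of the groups `G σ`. -/
def relators : Set (Monoid.CoprodI 𝒢.G) :=
  {z | ∃ (σ τ : Q) (h : τ < σ) (g : 𝒢.G σ),
    z = Monoid.CoprodI.of (𝒢.ψ h g) * (Monoid.CoprodI.of g)⁻¹}

/-- The direct limit of the groups `G σ`: the free product of the groups `G σ` modulo the
relations `ψ g = g`. -/
abbrev Colim : Type := Monoid.CoprodI 𝒢.G ⧸ Subgroup.normalClosure 𝒢.relators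

/-- The canonical homomorphism of `G σ` to the direct limit. -/
def of (σ : Q) : 𝒢.G σ →* 𝒢.Colim := (QuotientGroup.mk' _).comp Monoid.CoprodI.of

end SimpleComplex

/-- The geometric realisation of (the order complex of) a finite poset: the points are the
convex combinations of elements of `Q` whose support is a chain. -/
abbrev Realization (Q : Type) [Fintype Q] [PartialOrder Q] : Type :=
  {f : Q → ℝ // (∀ q, 0 ≤ f q) ∧ ∑ q, f q = 1 ∧ IsChain (· ≤ ·) {q | f q ≠ 0}}

/-- `Γ` is isomorphic to the fundamental group of a developable simple complex of finite groups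
over a finite poset whose geometric realisation is simply connected. -/
def IsPushoutOfFinite (Γ : Type) [Group Γ] : Prop :=
  ∃ (Q : Type) (_ : Fintype Q) (_ : PartialOrder Q) (𝒢 : SimpleComplex Q),
    (∀ σ, Finite (𝒢.G σ)) ∧ SimplyConnectedSpace (Realization Q) ∧
      (∀ σ, Function.Injective (𝒢.of σ)) ∧ Nonempty (𝒢.Colim ≃* Γ)

end Pool.Agent.Helper44.OutFn
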