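import Pool.Agent.Helper44.OutFn.Defs

/-!
The Whitehead elements `T A a` (product of the commuting transvections `x ↦ x a`, `x ∈ A`).
-/

namespace Pool.Agent.Helper44.OutFn

variable {α : Type*} [DecidableEq α] {X : Type*} [Group X]

namespace NData

variable (D : NData α X)

theorem comm_same (a : Lt α) (A : Finset (Lt α)) :
    ((A.filter (fun x => x.1 ≠ a.1) : Finset (Lt α)) : Set (Lt α)).Pairwise
      (Function.onFun Commute (fun x => D.e x a)) := by
  intro x hx y hy hxy
  simp only [Finset.coe_filter, Set.mem_ofPred_eq] at hx hy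
  exact D.comm x a y a hxy hx.2 hy.2 hx.2 hy.2

/-- The Whitehead element of the set of letters `A` and the letter `a`: product of the `e x a`
with `x ∈ A` not on the generator of `a`. -/
noncomputable def T (A : Finset (Lt α)) (a : Lt α) : X :=
  (A.filter (fun x => x.1 ≠ a.1)).noncommProd (fun x => D.e x a) (D.comm_same a A)

theorem T_congr {A B : Finset (Lt α)} {a : Lt α}
    (h : ∀ x, x.1 ≠ a.1 → (x ∈ A ↔ x ∈ B)) : D.T A a = D.T B a := by
  have : A.filter (fun x => x.1 ≠ a.1) = B.filter (fun x => x.1 ≠ a.1) := by
    ext x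
    simp only [Finset.mem_filter]
    constructor
    · rintro ⟨h1, h2⟩; exact ⟨(h x h2).1 h1, h2⟩
    · rintro ⟨h1, h2⟩; exact ⟨(h x h2).2 h1, h2⟩
  unfold T
  simp only [this]

@[simp] theorem T_empty (a : Lt α) : D.T ∅ a = 1 := by
  unfold T
  simp

theorem T_eq_one {A : Finset (Lt α)} {a : Lt α} (h : ∀ x ∈ A, x.1 = a.1) : D.T A a = 1 := by
  rw [D.T_congr (B := ∅) (a := a), T_empty]
  intro x hx
  simp only [Finset.notMem_empty, iff_false]
  exact fun hA => hx (h x hA)

theorem T_insert {A : Finset (Lt α)} {a x : Lt α} (hx : x ∉ A) (hxa : x.1 ≠ a.1) :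
    D.T (insert x A) a = D.e x a * D.T A a := by
  unfold T
  have h1 : (insert x A).filter (fun x => x.1 ≠ a.1) =
      insert x (A.filter (fun x => x.1 ≠ a.1)) := by
    rw [Finset.filter_insert, if_pos hxa]
  simp only [h1]
  rw [Finset.noncommProd_insert_of_notMem]
  simp [hx]

theorem T_insert_same {A : Finset (Lt α)} {a x : Lt α} (hxa : x.1 = a.1) :
    D.T (insert x A) a = D.T A a := by
  apply D.T_congr
  intro y hy
  simp only [Finset.mem_insert, or_iff_right_iff_imp]
  rintro rfl
  exact absurd hxa hy

theorem T_singleton {a x : Lt α} (hxa : x.1 ≠ a.1) : D.T {x} a = D.e x a := by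
  have := D.T_insert (A := ∅) (a := a) (x := x) (by simp) hxa
  simpa using this

/-- `T A a` commutes with `e x a`. -/
theorem commute_T_e {A : Finset (Lt α)} {a x : Lt α} (hxa : x.1 ≠ a.1) :
    Commute (D.T A a) (D.e x a) := by
  induction A using Finset.induction_on with
  | empty => simp
  | insert y A hy ih =>
    by_cases hya : y.1 = a.1
    · rw [D.T_insert_same hya]; exact ih
    · rw [D.T_insert hy hya]
      apply Commute.mul_left _ ih
      by_cases hxy : y = x
      · subst hxy; exact Commute.refl _
      · exact D.comm y a x a hxy hya hxa hya hxa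

theorem commute_T_T (A B : Finset (Lt α)) (a : Lt α) : Commute (D.T A a) (D.T B a) := by
  induction B using Finset.induction_on with
  | empty => simp
  | insert y B hy ih =>
    by_cases hya : y.1 = a.1
    · rw [D.T_insert_same hya]; exact ih
    · rw [D.T_insert hy hya]
      exact (D.commute_T_e hya).mul_right ih

theorem T_union {A B : Finset (Lt α)} {a : Lt α} (h : ∀ x ∈ A, x ∈ B → x.1 = a.1) :
    D.T (A ∪ B) a = D.T A a * D.T B a := by
  induction A using Finset.induction_on with
  | empty => simp
  | insert y A hy ih =>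
    have ih' := ih (fun x hx => h x (Finset.mem_insert_of_mem hx))
    by_cases hya : y.1 = a.1
    · rw [Finset.insert_union, D.T_insert_same hya, D.T_insert_same hya, ih']
    · have hyB : y ∉ B := fun hB => hya (h y (Finset.mem_insert_self _ _) hB)
      rw [Finset.insert_union, D.T_insert (by simp [hy, hyB]) hya, D.T_insert hy hya, ih', mul_assoc]

theorem T_bar (A : Finset (Lt α)) (a : Lt α) : D.T A (bar a) = (D.T A a)⁻¹ := by
  induction A using Finset.induction_on with
  | empty => simp
  | insert y A hy ih =>
    by_cases hya : y.1 = a.1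
    · rw [D.T_insert_same hya, D.T_insert_same (by simpa using hya), ih]
    · rw [D.T_insert hy hya, D.T_insert hy (by simpa using hya), ih, D.e_bar _ _ hya, mul_inv_rev,
        ← mul_inv_rev, ← mul_inv_rev, (D.commute_T_e hya).eq]

/-- Equivariance of the Whitehead elements under the signed permutations. -/
theorem T_equivar (w : SPerm α) (A : Finset (Lt α)) (a : Lt α) :
    D.P w * D.T A a * (D.P w)⁻¹ = D.T (A.image (w : Lt α → Lt α)) (w a) := by
  induction A using Finset.induction_on with
  | empty => simp
  | insert y A hy ih =>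
    by_cases hya : y.1 = a.1
    · rw [D.T_insert_same hya, Finset.image_insert, D.T_insert_same (SPerm.fst_eq w hya), ih]
    · rw [D.T_insert hy hya, Finset.image_insert, D.T_insert _ (SPerm.fst_ne w hya), ← ih,
        ← D.equivar w y a hya]
      · group
      · rw [Finset.mem_image]
        rintro ⟨z, hz, hzy⟩
        exact hy (SPerm.injective w hzy ▸ hz)

end NData

end Pool.Agent.Helper44.OutFn
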