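import Pool.Agent.Helper44.OutFn.TBasic

/-!
Turns of words, cuts and norms.
-/

namespace Pool.Agent.Helper44.OutFn

variable {α : Type*} [DecidableEq α]

/-- The turns of a word `l` which is preceded by the half edge `u` (`none` is the base point). -/
def turns : Option (Lt α) → List (Lt α) → List (Option (Lt α) × Option (Lt α))
  | u, [] => [(u, none)]
  | u, x :: t => (u, some (bar x)) :: turns (some x) t

/-- membership of a half edge in a set of letters (the base point is never in the set) -/
def mem' (A : Finset (Lt α)) : Option (Lt α) → Bool
  | none => false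
  | some x => decide (x ∈ A)

@[simp] theorem mem'_none (A : Finset (Lt α)) : mem' A none = false := rfl

@[simp] theorem mem'_some (A : Finset (Lt α)) (x : Lt α) : mem' A (some x) = decide (x ∈ A) := rfl

/-- whether a turn crosses from the set to its complement -/
def crossT (A : Finset (Lt α)) (t : Option (Lt α) × Option (Lt α)) : ℕ :=
  if mem' A t.1 = mem' A t.2 then 0 else 1

/-- number of turns of a word crossing the set `A` -/
def cutW (A : Finset (Lt α)) (l : List (Lt α)) : ℕ := ((turns none l).map (crossT A)).sum

/-- number of letters of a word on the generator of `a` -/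
def valW (a : Lt α) (l : List (Lt α)) : ℕ := l.countP (fun x => x.1 = a.1)

/-- The endomorphism `f` acts on letters as the Whitehead automorphism of `(A, a)`. -/
def IsWh (A : Finset (Lt α)) (a : Lt α) (f : FreeGroup α → FreeGroup α) : Prop :=
  f (el a) = el a ∧ ∀ x : Lt α, x.1 ≠ a.1 →
    f (el x) = (if bar x ∈ A then (el a)⁻¹ else 1) * el x * (if x ∈ A then el a else 1)

/-- The endomorphism `f` acts on letters by `x ↦ p (bar x)⁻¹ x p x`, where the letters on the
generators in `S` are deleted. -/
def IsPot (S : Finset α) (p : Lt α → FreeGroup α) (f : FreeGroup α → FreeGroup α) : Prop :=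
  ∀ x : Lt α, f (el x) = (p (bar x))⁻¹ * (if x.1 ∈ S then 1 else el x) * p x

/-- value of a potential at a half edge, `1` at the base point -/
def pv (p : Lt α → FreeGroup α) : Option (Lt α) → FreeGroup α
  | none => 1
  | some x => p x

section norm

variable [Fintype α]

/-- total length of the images of the generators -/
def nrm (f : MulAut (FreeGroup α)) : ℕ := ∑ i : α, (f (el (i, true))).norm

/-- total cut number of the images of the generators -/
def cut (A : Finset (Lt α)) (f : MulAut (FreeGroup α)) : ℕ :=
  ∑ i : α, cutW A (f (el (i, true))).toWord

/-- total valence -/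
def val (a : Lt α) (f : MulAut (FreeGroup α)) : ℕ :=
  ∑ i : α, valW a (f (el (i, true))).toWord

end norm

theorem valW_bar (a : Lt α) (l : List (Lt α)) : valW (bar a) l = valW a l := rfl

theorem val_bar [Fintype α] (a : Lt α) (f : MulAut (FreeGroup α)) : val (bar a) f = val a f := rfl

end Pool.Agent.Helper44.OutFn
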